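import Pool.Agent.Lib.Helper7.Snub7

set_option autoImplicit false

namespace Pool.Agent.Results.MP_52b7e0_co.FullVersusRotation

open Snub

/-- the linear isometries of Euclidean 3-space, that is, the elements of `O(3)` -/
abbrev Iso : Type := E3 ≃ₗᵢ[ℝ] E3

/-- the underlying map of a linear isometry -/
noncomputable def ap (g : Iso) : E3 → E3 := g

/-- the matrix of a linear isometry in the standard basis -/
noncomputable def mat (g : Iso) : Matrix (Fin 3) (Fin 3) ℝ :=
  fun i j => ap g (EuclideanSpace.single j 1) i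

/-- the polytope `P` is symmetric under all elements of `G` -/
def Symmetric (G : Set Iso) (P : Set E3) : Prop := ∀ g ∈ G, ap g '' P = P

/-- the set `F(G)` of pairs `(f₀, f₂)` of the 3-polytopes that are `G`-symmetric -/
def F (G : Set Iso) : Set (ℕ × ℕ) :=
  {f | ∃ P : Set E3, IsPolytope3 P ∧ Symmetric G P ∧ f = (numVertices P, numFacets P)}

/-- the full symmetry group of `K` in `O(3)` -/
def fullSymmetries (K : Set E3) : Set Iso := {g | ap g '' K = K}

/-- the rotation group of `K`: its symmetries in `O(3)` of determinant one -/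
def rotations (K : Set E3) : Set Iso := {g | ap g '' K = K ∧ (mat g).det = 1}

/-- a regular tetrahedron centred at the origin -/
def tetrahedron : Set E3 :=
  convexHull ℝ {vec 1 1 1, vec 1 (-1) (-1), vec (-1) 1 (-1), vec (-1) (-1) 1}

/-- a regular octahedron centred at the origin -/
def octahedron : Set E3 :=
  convexHull ℝ {vec 1 0 0, vec (-1) 0 0, vec 0 1 0, vec 0 (-1) 0, vec 0 0 1, vec 0 0 (-1)}

/-- a regular icosahedron centred at the origin; `Real.goldenRatio` is `(1 + √5) / 2` -/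
noncomputable def icosahedron : Set E3 :=
  convexHull ℝ {v : E3 | ∃ s t : ℝ, (s = 1 ∨ s = -1) ∧ (t = 1 ∨ t = -1) ∧
    (v = vec 0 s (t * Real.goldenRatio) ∨ v = vec s (t * Real.goldenRatio) 0 ∨
      v = vec (t * Real.goldenRatio) 0 s)}

lemma tetrahedron_eq : tetrahedron = convexHull ℝ (Set.range (fun i => emb (PT i))) := by
  unfold tetrahedron
  congr 1
  ext v
  simp only [Set.mem_insert_iff, Set.mem_singleton_iff, Set.mem_range]
  constructor
  · rintro (rfl | rfl | rfl | rfl)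
    · refine ⟨0, ?_⟩
      simp [emb, PT, ev, vec]
    · refine ⟨1, ?_⟩
      simp [emb, PT, ev, vec]
    · refine ⟨2, ?_⟩
      simp [emb, PT, ev, vec]
    · refine ⟨3, ?_⟩
      simp [emb, PT, ev, vec]
  · rintro ⟨i, rfl⟩
    fin_cases i <;> simp [emb, PT, ev, vec]

lemma octahedron_eq : octahedron = convexHull ℝ (Set.range (fun i => emb (PO i))) := by
  unfold octahedron
  congr 1
  ext v
  simp only [Set.mem_insert_iff, Set.mem_singleton_iff, Set.mem_range]
  constructor
  · rintro (rfl | rfl | rfl | rfl | rfl | rfl)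
    · refine ⟨0, ?_⟩
      simp [emb, PO, ev, vec]
    · refine ⟨3, ?_⟩
      simp [emb, PO, ev, vec]
    · refine ⟨1, ?_⟩
      simp [emb, PO, ev, vec]
    · refine ⟨4, ?_⟩
      simp [emb, PO, ev, vec]
    · refine ⟨2, ?_⟩
      simp [emb, PO, ev, vec]
    · refine ⟨5, ?_⟩
      simp [emb, PO, ev, vec]
  · rintro ⟨i, rfl⟩
    fin_cases i <;> simp [emb, PO, ev, vec]

lemma icosahedron_eq : icosahedron = convexHull ℝ (Set.range (fun i => emb (PI i))) := by
  unfold icosahedron
  congr 1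
  ext v
  simp only [Set.mem_ofPred_eq, Set.mem_range]
  constructor
  · rintro ⟨s, t, rfl | rfl, rfl | rfl, rfl | rfl | rfl⟩
    · exact ⟨0, by simp [emb, PI, ev, vec]⟩
    · exact ⟨8, by simp [emb, PI, ev, vec]⟩
    · exact ⟨2, by simp [emb, PI, ev, vec]⟩
    · exact ⟨4, by simp [emb, PI, ev, vec]⟩
    · exact ⟨9, by simp [emb, PI, ev, vec]⟩
    · exact ⟨3, by simp [emb, PI, ev, vec]⟩
    · exact ⟨1, by simp [emb, PI, ev, vec]⟩
    · exact ⟨10, by simp [emb, PI, ev, vec]⟩
    · exact ⟨6, by simp [emb, PI, ev, vec]⟩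
    · exact ⟨5, by simp [emb, PI, ev, vec]⟩
    · exact ⟨11, by simp [emb, PI, ev, vec]⟩
    · exact ⟨7, by simp [emb, PI, ev, vec]⟩
  · rintro ⟨i, rfl⟩
    fin_cases i
    · refine ⟨1, 1, Or.inl rfl, Or.inl rfl, Or.inl ?_⟩ <;> simp [emb, PI, ev, vec]
    · refine ⟨-1, 1, Or.inr rfl, Or.inl rfl, Or.inl ?_⟩ <;> simp [emb, PI, ev, vec]
    · refine ⟨1, 1, Or.inl rfl, Or.inl rfl, Or.inr (Or.inr ?_)⟩ <;> simp [emb, PI, ev, vec]
    · refine ⟨1, -1, Or.inl rfl, Or.inr rfl, Or.inr (Or.inr ?_)⟩ <;> simp [emb, PI, ev, vec]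
    · refine ⟨1, -1, Or.inl rfl, Or.inr rfl, Or.inl ?_⟩ <;> simp [emb, PI, ev, vec]
    · refine ⟨-1, -1, Or.inr rfl, Or.inr rfl, Or.inl ?_⟩ <;> simp [emb, PI, ev, vec]
    · refine ⟨-1, 1, Or.inr rfl, Or.inl rfl, Or.inr (Or.inr ?_)⟩ <;> simp [emb, PI, ev, vec]
    · refine ⟨-1, -1, Or.inr rfl, Or.inr rfl, Or.inr (Or.inr ?_)⟩ <;> simp [emb, PI, ev, vec]
    · refine ⟨1, 1, Or.inl rfl, Or.inl rfl, Or.inr (Or.inl ?_)⟩ <;> simp [emb, PI, ev, vec]
    · refine ⟨1, -1, Or.inl rfl, Or.inr rfl, Or.inr (Or.inl ?_)⟩ <;> simp [emb, PI, ev, vec]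
    · refine ⟨-1, 1, Or.inr rfl, Or.inl rfl, Or.inr (Or.inl ?_)⟩ <;> simp [emb, PI, ev, vec]
    · refine ⟨-1, -1, Or.inr rfl, Or.inr rfl, Or.inr (Or.inl ?_)⟩ <;> simp [emb, PI, ev, vec]

lemma det_mat (g : Iso) : (mat g).det = dt g := by
  unfold dt
  rw [← LinearMap.det_toMatrix (EuclideanSpace.basisFun (Fin 3) ℝ).toBasis]
  congr 1

lemma F_full (K : Set E3) : F (fullSymmetries K) = fSet (fullGroup K) := rfl

lemma F_rot (K : Set E3) : F (rotations K) = fSet (rotationGroup K) := by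
  have h : rotations K = (rotationGroup K : Set Iso) := by
    ext g
    change (ap g '' K = K ∧ (mat g).det = 1) ↔ (g '' K = K ∧ dt g = 1)
    rw [det_mat]
    rfl
  rw [h]
  rfl

/-- All three equalities fail: the set of f-vectors of polytopes symmetric under the full
symmetry group is a proper subset of the one for the rotation group. -/
theorem result :
    F (fullSymmetries tetrahedron) ⊂ F (rotations tetrahedron) ∧
    F (fullSymmetries octahedron) ⊂ F (rotations octahedron) ∧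
    F (fullSymmetries icosahedron) ⊂ F (rotations icosahedron) := by
  rw [F_full, F_full, F_full, F_rot, F_rot, F_rot, tetrahedron_eq, octahedron_eq, icosahedron_eq]
  exact ⟨codeT.ssubset (g := 2) cardT (by norm_num) (by norm_num),
    codeO.ssubset (g := 4) cardO (by norm_num) (by norm_num),
    codeI.ssubset (g := 10) cardI (by norm_num) (by norm_num)⟩

end Pool.Agent.Results.MP_52b7e0_co.FullVersusRotation
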